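import Pool.Agent.J4.H9.AR.Nf

/-! Coefficients in a geometric progression, a filler and a few large coefficients. -/

set_option autoImplicit false

namespace Pool.Agent.J4.H9.AR

open Finset Pool.Agent.J4.H9.LD

/-- the tail of the progression -/
theorem tail_le {M q : ℝ} (hq0 : 0 < q) (hq1 : q < 1) {K : ℕ} {T : Finset ℝ}
    (hM : 0 < M) (hT : ∀ w ∈ T, w ≤ M * q ^ K ∧ ∃ k : ℕ, w = M * q ^ k) :
    ∑ w ∈ T, w ^ 2 ≤ (M * q ^ K) ^ 2 / (1 - q) := by
  classical
  have h1 : ∀ w, ∃ i : ℕ, w ∈ T → w = M * q ^ (K + i) := by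
    intro w
    by_cases hw : w ∈ T
    · obtain ⟨h1, k, hk⟩ := hT w hw
      have h2 : K ≤ k := by
        rw [hk] at h1
        have h3 := le_of_mul_le_mul_left h1 hM
        exact (pow_le_pow_iff_right_of_lt_one₀ hq0 hq1).1 h3
      exact ⟨k - K, fun _ => by rw [hk]; congr 2; omega⟩
    · exact ⟨0, fun h => absurd h hw⟩
  choose i hi using h1
  obtain ⟨N, hN⟩ : ∃ N, ∀ w ∈ T, i w < N := by
    obtain ⟨N, hN⟩ := (T.image i).bddAbove
    exact ⟨N + 1, fun w hw => Nat.lt_succ_of_le (hN (by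
      rw [Finset.mem_coe, Finset.mem_image]; exact ⟨w, hw, rfl⟩))⟩
  have h2 : ∑ w ∈ T, w ^ 2 ≤ ∑ a ∈ range N, (M * q ^ (K + a)) ^ 2 := by
    have h3 : ∑ w ∈ T, w ^ 2 = ∑ a ∈ T.image i, (M * q ^ (K + a)) ^ 2 := by
      rw [Finset.sum_image]
      · exact Finset.sum_congr rfl fun w hw => by rw [← hi w hw]
      · intro a ha b hb hab
        rw [hi a ha, hi b hb, hab]
    rw [h3]
    refine Finset.sum_le_sum_of_subset_of_nonneg ?_ fun _ _ _ => sq_nonneg _
    intro a ha
    rw [Finset.mem_image] at ha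
    obtain ⟨w, hw, rfl⟩ := ha
    exact Finset.mem_range.2 (hN w hw)
  refine h2.trans ?_
  have h4 : ∑ a ∈ range N, (M * q ^ (K + a)) ^ 2 = (M * q ^ K) ^ 2 * ∑ a ∈ range N, (q ^ 2) ^ a := by
    rw [Finset.mul_sum]
    refine Finset.sum_congr rfl fun a _ => ?_
    rw [pow_add, ← pow_mul, mul_comm 2 a, pow_mul]
    ring
  rw [h4, div_eq_mul_inv]
  apply mul_le_mul_of_nonneg_left _ (sq_nonneg _)
  have hq2 : q ^ 2 < 1 := by nlinarith
  have h5 : ∑ a ∈ range N, (q ^ 2) ^ a ≤ (1 - q ^ 2)⁻¹ := by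
    have h6 := geom_sum_eq (x := q ^ 2) hq2.ne N
    rw [h6, ← neg_div_neg_eq, neg_sub, neg_sub, div_eq_mul_inv]
    have h7 : 0 ≤ (q ^ 2) ^ N := by positivity
    have h8 : 0 < (1 - q ^ 2)⁻¹ := inv_pos.2 (by linarith)
    nlinarith
  refine h5.trans ?_
  apply inv_anti₀ (by linarith)
  nlinarith

/-- the top of the progression -/
theorem top_card {M q : ℝ} (hq0 : 0 < q) (hq1 : q < 1) {K : ℕ} {T : Finset ℝ}
    (hM : 0 < M) (hT : ∀ w ∈ T, M * q ^ K < w ∧ ∃ k : ℕ, w = M * q ^ k) : T.card ≤ K := by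
  classical
  have h1 : T ⊆ (range K).image fun k => M * q ^ k := by
    intro w hw
    obtain ⟨h1, k, hk⟩ := hT w hw
    rw [Finset.mem_image]
    refine ⟨k, ?_, hk.symm⟩
    rw [Finset.mem_range]
    by_contra hcon
    push Not at hcon
    rw [hk] at h1
    have h3 := lt_of_mul_lt_mul_left h1 hM.le
    exact absurd (pow_le_pow_of_le_one hq0.le hq1.le hcon) (not_le.2 h3)
  refine (Finset.card_le_card h1).trans (Finset.card_image_le.trans ?_)
  rw [Finset.card_range]

theorem sum_times {m : ℕ} (z : Fin m → ℝ) (T : Finset ℝ) (g : ℝ → ℝ) :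
    ∑ j ∈ univ.filter (fun j => z j ∈ T), g (z j) = ∑ w ∈ T, (times z w : ℝ) * g w := by
  classical
  rw [← Finset.sum_fiberwise_of_maps_to (t := T) (g := z) (fun j hj => (Finset.mem_filter.1 hj).2)]
  refine Finset.sum_congr rfl fun w hw => ?_
  have h1 : (univ.filter fun j => z j ∈ T).filter (fun j => z j = w) =
      univ.filter fun j => z j = w := by
    ext j
    simp only [Finset.mem_filter, Finset.mem_univ, true_and, and_iff_right_iff_imp]
    rintro rfl
    exact hw
  rw [h1, Finset.sum_congr rfl (g := fun _ => g w) fun j hj => by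
    rw [(Finset.mem_filter.1 hj).2], Finset.sum_const, nsmul_eq_mul]
  rfl

theorem dominated {m : ℕ} {z : Fin m → ℝ} {M q u : ℝ} {K : ℕ} (hM : 0 < M) (hq0 : 0 < q)
    (hq1 : q < 1) (hK : 1 ≤ K) (hu : 0 < u)
    (hz : ∀ j, z j = 0 ∨ z j = u ∨ M < z j ∨ ∃ k : ℕ, z j = M * q ^ k)
    (huz : ∀ j, z j ≠ 0 → u ≤ z j) (hux : 96 ≤ times z u)
    (hf : 9280 * ((M * q ^ K) ^ 2 / (1 - q)) ≤ ∑ j ∈ univ.filter (fun j => z j = u), z j ^ 2)
    (htot : 9375 * ((M * q ^ K) ^ 2 / (1 - q) + K * M ^ 2) +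
      9281 * ∑ j ∈ univ.filter (fun j => M < z j), z j ^ 2 ≤ ∑ j, z j ^ 2) :
    ∃ R y, Dominated z R y := by
  classical
  obtain ⟨τ, hτ⟩ : ∃ τ, τ = M * q ^ K := ⟨_, rfl⟩
  rw [← hτ] at hf htot
  have hτM : τ < M := by
    rw [hτ]
    have h1 : q ^ K < 1 := pow_lt_one₀ hq0.le hq1 (by omega)
    nlinarith
  have hτ0 : 0 < τ := by rw [hτ]; positivity
  have hκ : 0 < 1 - q := by linarith
  obtain ⟨R, hR⟩ : ∃ R : Finset ℝ, R = (univ.image z).filter fun v => v ≠ 0 ∧ times z v < 96 :=
    ⟨_, rfl⟩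
  have hmR : ∀ v, v ∈ R ↔ (∃ j, z j = v) ∧ v ≠ 0 ∧ times z v < 96 := by
    intro v
    rw [hR, Finset.mem_filter, Finset.mem_image]
    simp
  have huR : u ∉ R := by
    rw [hmR]
    rintro ⟨-, -, h⟩
    omega
  have hR1 : ∀ v ∈ R, M < v ∨ ∃ k : ℕ, v = M * q ^ k := by
    intro v hv
    have hv' := hv
    rw [hmR] at hv'
    obtain ⟨⟨j, rfl⟩, h1, h2⟩ := hv'
    rcases hz j with h | h | h | h
    · exact absurd h h1
    · rw [h] at hv
      exact absurd hv huR
    · exact Or.inl h
    · exact Or.inr h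
  have hRu : ∀ v ∈ R, u ≤ v := by
    intro v hv
    rw [hmR] at hv
    obtain ⟨⟨j, rfl⟩, h1, h2⟩ := hv
    exact huz j h1
  have hRpos : ∀ v ∈ R, 0 < v := fun v hv => hu.trans_le (hRu v hv)
  obtain ⟨y, hy⟩ : ∃ y : ℝ → ℝ, y = fun v => if v ≤ τ then 4 * v else max v (4 * M) := ⟨_, rfl⟩
  have hy1 : ∀ v, v ≤ τ → y v = 4 * v := fun v hv => by rw [hy]; simp only [if_pos hv]
  have hy2 : ∀ v, τ < v → y v = max v (4 * M) := fun v hv => by
    rw [hy]; simp only [if_neg (not_le.2 hv)]
  -- the sums over the rare values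
  obtain ⟨A, hA⟩ : ∃ A, A = τ ^ 2 / (1 - q) := ⟨_, rfl⟩
  rw [← hA] at hf htot
  have hA0 : 0 ≤ A := by rw [hA]; positivity
  have hT1 : ∑ w ∈ R.filter (fun w => w ≤ τ), w ^ 2 ≤ A := by
    rw [hA, hτ]
    refine tail_le hq0 hq1 hM fun w hw => ?_
    rw [Finset.mem_filter] at hw
    refine ⟨hw.2, ?_⟩
    rcases hR1 w hw.1 with h | h
    · have := hw.2
      rw [← hτ] at this
      linarith
    · exact h
  have hT2 : ((R.filter (fun w => τ < w ∧ w ≤ M)).card : ℝ) ≤ K := by
    have h1 : (R.filter (fun w => τ < w ∧ w ≤ M)).card ≤ K := by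
      refine top_card hq0 hq1 hM fun w hw => ?_
      rw [Finset.mem_filter] at hw
      refine ⟨hτ ▸ hw.2.1, ?_⟩
      rcases hR1 w hw.1 with h | h
      · linarith [hw.2.2]
      · exact h
    exact_mod_cast h1
  obtain ⟨B, hB⟩ : ∃ B, B = ∑ j ∈ univ.filter (fun j => M < z j), z j ^ 2 := ⟨_, rfl⟩
  rw [← hB] at htot
  have hB0 : 0 ≤ B := by rw [hB]; positivity
  have hT3 : ∑ w ∈ R.filter (fun w => M < w), w ^ 2 ≤ B := by
    have h1 := sum_times z (R.filter fun w => M < w) (fun w => w ^ 2)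
    have h2 : ∑ w ∈ R.filter (fun w => M < w), w ^ 2 ≤
        ∑ w ∈ R.filter (fun w => M < w), (times z w : ℝ) * w ^ 2 := by
      refine Finset.sum_le_sum fun w hw => ?_
      have h3 : 1 ≤ times z w := by
        rw [Finset.mem_filter, hmR] at hw
        obtain ⟨⟨⟨j, hj⟩, -, -⟩, -⟩ := hw
        exact Finset.card_pos.2 ⟨j, Finset.mem_filter.2 ⟨Finset.mem_univ j, hj⟩⟩
      have h4 : (1 : ℝ) ≤ times z w := by exact_mod_cast h3
      nlinarith [sq_nonneg w]
    refine h2.trans (h1.symm.le.trans ?_)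
    rw [hB]
    refine Finset.sum_le_sum_of_subset_of_nonneg (fun j hj => ?_) fun _ _ _ => sq_nonneg _
    rw [Finset.mem_filter, Finset.mem_filter] at hj
    exact Finset.mem_filter.2 ⟨Finset.mem_univ j, hj.2.2⟩
  have hT2' : ∑ w ∈ R.filter (fun w => τ < w ∧ w ≤ M), M ^ 2 ≤ K * M ^ 2 := by
    rw [Finset.sum_const, nsmul_eq_mul]
    exact mul_le_mul_of_nonneg_right hT2 (sq_nonneg M)
  have hsplit : ∀ g : ℝ → ℝ, ∑ w ∈ R, g w = ∑ w ∈ R.filter (fun w => w ≤ τ), g w +
      (∑ w ∈ R.filter (fun w => τ < w ∧ w ≤ M), g w + ∑ w ∈ R.filter (fun w => M < w), g w) := by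
    intro g
    rw [← Finset.sum_filter_add_sum_filter_not R (fun w => w ≤ τ)]
    congr 1
    rw [← Finset.sum_filter_add_sum_filter_not (R.filter fun w => ¬ w ≤ τ) (fun w => w ≤ M),
      Finset.filter_filter, Finset.filter_filter]
    congr 1
    · refine Finset.sum_congr ?_ fun _ _ => rfl
      ext w
      simp only [Finset.mem_filter, not_le]
    · refine Finset.sum_congr ?_ fun _ _ => rfl
      ext w
      simp only [Finset.mem_filter, not_le]
      constructor
      · rintro ⟨h1, -, h2⟩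
        exact ⟨h1, h2⟩
      · rintro ⟨h1, h2⟩
        exact ⟨h1, by linarith, h2⟩
  have hcoef : ∀ w ∈ R, (104 + 5 * (times z w : ℝ)) ≤ 580 := by
    intro w hw
    rw [hmR] at hw
    have h1 : (times z w : ℝ) ≤ 95 := by
      have h2 : times z w ≤ 95 := by omega
      exact_mod_cast h2
    linarith
  have hysum : ∑ w ∈ R, y w ^ 2 ≤ 16 * (A + K * M ^ 2 + B) := by
    rw [hsplit]
    have h1 : ∑ w ∈ R.filter (fun w => w ≤ τ), y w ^ 2 ≤ 16 * A := by
      have h2 : ∑ w ∈ R.filter (fun w => w ≤ τ), y w ^ 2 =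
          16 * ∑ w ∈ R.filter (fun w => w ≤ τ), w ^ 2 := by
        rw [Finset.mul_sum]
        refine Finset.sum_congr rfl fun w hw => ?_
        rw [hy1 w (Finset.mem_filter.1 hw).2]
        ring
      rw [h2]
      linarith
    have h3 : ∑ w ∈ R.filter (fun w => τ < w ∧ w ≤ M), y w ^ 2 ≤ 16 * (K * M ^ 2) := by
      have h2 : ∑ w ∈ R.filter (fun w => τ < w ∧ w ≤ M), y w ^ 2 =
          16 * ∑ w ∈ R.filter (fun w => τ < w ∧ w ≤ M), M ^ 2 := by
        rw [Finset.mul_sum]
        refine Finset.sum_congr rfl fun w hw => ?_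
        have h4 := (Finset.mem_filter.1 hw).2
        rw [hy2 w h4.1, max_eq_right (by linarith [h4.2])]
        ring
      rw [h2]
      linarith
    have h5 : ∑ w ∈ R.filter (fun w => M < w), y w ^ 2 ≤ 16 * B := by
      have h2 : ∑ w ∈ R.filter (fun w => M < w), y w ^ 2 ≤
          ∑ w ∈ R.filter (fun w => M < w), 16 * w ^ 2 := by
        refine Finset.sum_le_sum fun w hw => ?_
        have h4 := (Finset.mem_filter.1 hw).2
        rw [hy2 w (by linarith)]
        have h6 : max w (4 * M) ≤ 4 * w := max_le (by linarith) (by linarith)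
        have h7 : 0 ≤ max w (4 * M) := le_trans (by linarith) (le_max_right _ _)
        nlinarith
      rw [← Finset.mul_sum] at h2
      linarith
    linarith
  have hLHS : ∀ v, ∑ w ∈ R.filter (fun w => y w ≤ y v), (104 + 5 * (times z w : ℝ)) * y w ^ 2 ≤
      9280 * (A + K * M ^ 2 + B) := by
    intro v
    refine (Finset.sum_le_sum_of_subset_of_nonneg (Finset.filter_subset _ _)
      fun _ _ _ => by positivity).trans ?_
    have h1 : ∑ w ∈ R, (104 + 5 * (times z w : ℝ)) * y w ^ 2 ≤ ∑ w ∈ R, 580 * y w ^ 2 :=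
      Finset.sum_le_sum fun w hw => mul_le_mul_of_nonneg_right (hcoef w hw) (sq_nonneg _)
    rw [← Finset.mul_sum] at h1
    linarith
  refine ⟨R, y, ⟨hRpos, ?_, ?_, ?_⟩⟩
  · intro v hv
    rcases le_or_gt v τ with h | h
    · rw [hy1 v h]
      linarith [hRpos v hv]
    · rw [hy2 v h]
      exact le_max_left _ _
  · intro j hj hj0
    by_contra hcon
    apply hj
    rw [hmR]
    exact ⟨⟨j, rfl⟩, hj0, by omega⟩
  · intro v hv
    rcases le_or_gt v τ with h | h
    · -- the tail
      have h1 : R.filter (fun w => y w ≤ y v) ⊆ R.filter (fun w => w ≤ τ) := by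
        intro w hw
        rw [Finset.mem_filter] at hw ⊢
        refine ⟨hw.1, ?_⟩
        by_contra hcon
        push Not at hcon
        have h2 := hw.2
        rw [hy1 v h, hy2 w hcon] at h2
        have h3 := le_max_right w (4 * M)
        linarith
      have h2 : ∑ w ∈ R.filter (fun w => y w ≤ y v), (104 + 5 * (times z w : ℝ)) * y w ^ 2 ≤
          9280 * A := by
        refine (Finset.sum_le_sum_of_subset_of_nonneg h1 fun _ _ _ => by positivity).trans ?_
        have h3 : ∑ w ∈ R.filter (fun w => w ≤ τ), (104 + 5 * (times z w : ℝ)) * y w ^ 2 ≤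
            ∑ w ∈ R.filter (fun w => w ≤ τ), 9280 * w ^ 2 := by
          refine Finset.sum_le_sum fun w hw => ?_
          rw [Finset.mem_filter] at hw
          have h4 := hcoef w hw.1
          rw [hy1 w hw.2]
          nlinarith [sq_nonneg w]
        rw [← Finset.mul_sum] at h3
        linarith
      refine h2.trans (hf.trans ?_)
      refine Finset.sum_le_sum_of_subset_of_nonneg (fun j hj => ?_) fun _ _ _ => sq_nonneg _
      rw [Finset.mem_filter] at hj ⊢
      rw [hj.2]
      refine ⟨Finset.mem_univ j, huR, ?_⟩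
      rw [hy1 v h]
      linarith [hRu v hv]
    · refine (hLHS v).trans ?_
      have h1 : univ.filter (fun j => z j ∉ R ∧ z j ≤ M) ⊆
          univ.filter (fun j => z j ∉ R ∧ 4 * z j ≤ y v) := by
        intro j hj
        rw [Finset.mem_filter] at hj ⊢
        refine ⟨hj.1, hj.2.1, ?_⟩
        rw [hy2 v h]
        exact le_trans (by linarith [hj.2.2]) (le_max_right _ _)
      refine le_trans ?_ (Finset.sum_le_sum_of_subset_of_nonneg h1 fun _ _ _ => sq_nonneg _)
      -- all coefficients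
      have h2 : ∑ j, z j ^ 2 = ∑ j ∈ univ.filter (fun j => z j ∉ R ∧ z j ≤ M), z j ^ 2 +
          (∑ j ∈ univ.filter (fun j => z j ∈ R.filter fun w => w ≤ M), z j ^ 2 + B) := by
        rw [hB, ← Finset.sum_filter_add_sum_filter_not univ (fun j => z j ≤ M), ← add_assoc]
        congr 1
        · rw [← Finset.sum_filter_add_sum_filter_not (univ.filter fun j => z j ≤ M)
            (fun j => z j ∉ R), Finset.filter_filter, Finset.filter_filter]
          congr 1
          · refine Finset.sum_congr ?_ fun _ _ => rfl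
            ext j
            simp only [Finset.mem_filter, Finset.mem_univ, true_and]
            exact and_comm
          · refine Finset.sum_congr ?_ fun _ _ => rfl
            ext j
            simp only [Finset.mem_filter, Finset.mem_univ, true_and, not_not]
            exact and_comm
        · refine Finset.sum_congr ?_ fun _ _ => rfl
          ext j
          simp only [Finset.mem_filter, Finset.mem_univ, true_and, not_le]
      have h3 : ∑ j ∈ univ.filter (fun j => z j ∈ R.filter fun w => w ≤ M), z j ^ 2 ≤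
          95 * (A + K * M ^ 2) := by
        rw [sum_times z (R.filter fun w => w ≤ M) (fun w => w ^ 2)]
        have h4 : ∑ w ∈ R.filter (fun w => w ≤ M), (times z w : ℝ) * w ^ 2 ≤
            ∑ w ∈ R.filter (fun w => w ≤ M), 95 * w ^ 2 := by
          refine Finset.sum_le_sum fun w hw => ?_
          have h5 := hcoef w (Finset.mem_filter.1 hw).1
          have h6 := (hmR w).1 (Finset.mem_filter.1 hw).1
          have h7 : (times z w : ℝ) ≤ 95 := by
            have h8 : times z w ≤ 95 := by omega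
            exact_mod_cast h8
          exact mul_le_mul_of_nonneg_right h7 (sq_nonneg _)
        rw [← Finset.mul_sum] at h4
        have h9 : ∑ w ∈ R.filter (fun w => w ≤ M), w ^ 2 ≤ A + K * M ^ 2 := by
          rw [← Finset.sum_filter_add_sum_filter_not (R.filter fun w => w ≤ M) (fun w => w ≤ τ),
            Finset.filter_filter, Finset.filter_filter]
          have e1 : R.filter (fun w => w ≤ M ∧ w ≤ τ) = R.filter fun w => w ≤ τ := by
            ext w
            simp only [Finset.mem_filter]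
            constructor
            · rintro ⟨h1, -, h2⟩
              exact ⟨h1, h2⟩
            · rintro ⟨h1, h2⟩
              exact ⟨h1, by linarith, h2⟩
          have e2 : R.filter (fun w => w ≤ M ∧ ¬ w ≤ τ) = R.filter fun w => τ < w ∧ w ≤ M := by
            ext w
            simp only [Finset.mem_filter, not_le]
            constructor
            · rintro ⟨h1, h2, h3⟩
              exact ⟨h1, h3, h2⟩
            · rintro ⟨h1, h2, h3⟩
              exact ⟨h1, h3, h2⟩
          rw [e1, e2]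
          refine add_le_add hT1 (le_trans (Finset.sum_le_sum fun w hw => ?_) hT2')
          rw [Finset.mem_filter] at hw
          exact pow_le_pow_left₀ (hRpos w hw.1).le hw.2.2 2
        linarith
      linarith

end Pool.Agent.J4.H9.AR
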