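import Pool.Agent.J4.H9.AR.Dom

/-! Few rare values up to a bound and a small part above it. -/

set_option autoImplicit false
set_option maxHeartbeats 1000000

namespace Pool.Agent.J4.H9.AR

open Finset Pool.Agent.J4.H9.LD

/-- the nonzero values up to `M` which are taken less than `96` times -/
noncomputable def rare {m : ℕ} (z : Fin m → ℝ) (M : ℝ) : Finset ℝ :=
  (univ.image z).filter fun v => v ≠ 0 ∧ v ≤ M ∧ times z v < 96

theorem mem_rare {m : ℕ} {z : Fin m → ℝ} {M v : ℝ} :
    v ∈ rare z M ↔ (∃ j, z j = v) ∧ v ≠ 0 ∧ v ≤ M ∧ times z v < 96 := by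
  rw [rare, Finset.mem_filter, Finset.mem_image]
  simp

theorem dominated_few {m : ℕ} {z : Fin m → ℝ} {M : ℝ} (hM : 0 < M) (hz : ∀ j, 0 ≤ z j)
    (h : 9375 * ((rare z M).card * M ^ 2) +
      9281 * ∑ j ∈ univ.filter (fun j => M < z j), z j ^ 2 ≤ ∑ j, z j ^ 2) :
    ∃ R y, Dominated z R y := by
  classical
  obtain ⟨R, hR⟩ : ∃ R : Finset ℝ, R = (univ.image z).filter fun v => v ≠ 0 ∧ times z v < 96 :=
    ⟨_, rfl⟩
  have hmR : ∀ v, v ∈ R ↔ (∃ j, z j = v) ∧ v ≠ 0 ∧ times z v < 96 := by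
    intro v
    rw [hR, Finset.mem_filter, Finset.mem_image]
    simp
  have hRpos : ∀ v ∈ R, 0 < v := by
    intro v hv
    rw [hmR] at hv
    obtain ⟨⟨j, rfl⟩, h1, h2⟩ := hv
    exact lt_of_le_of_ne (hz j) (Ne.symm h1)
  have hRr : R.filter (fun w => w ≤ M) = rare z M := by
    ext w
    rw [Finset.mem_filter, hmR, mem_rare]
    tauto
  obtain ⟨r, hr⟩ : ∃ r : ℝ, r = (rare z M).card := ⟨_, rfl⟩
  obtain ⟨B, hB⟩ : ∃ B, B = ∑ j ∈ univ.filter (fun j => M < z j), z j ^ 2 := ⟨_, rfl⟩
  rw [← hr, ← hB] at h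
  have hB0 : 0 ≤ B := by rw [hB]; positivity
  have hT3 : ∑ w ∈ R.filter (fun w => ¬ w ≤ M), w ^ 2 ≤ B := by
    have h1 := sum_times z (R.filter fun w => ¬ w ≤ M) (fun w => w ^ 2)
    have h2 : ∑ w ∈ R.filter (fun w => ¬ w ≤ M), w ^ 2 ≤
        ∑ w ∈ R.filter (fun w => ¬ w ≤ M), (times z w : ℝ) * w ^ 2 := by
      refine Finset.sum_le_sum fun w hw => ?_
      have h3 : 1 ≤ times z w := by
        rw [Finset.mem_filter, hmR] at hw
        obtain ⟨⟨⟨j, hj⟩, -, -⟩, -⟩ := hw
        exact Finset.card_pos.2 ⟨j, Finset.mem_filter.2 ⟨Finset.mem_univ j, hj⟩⟩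
      have h4 : (1 : ℝ) ≤ times z w := by exact_mod_cast h3
      nlinarith [sq_nonneg w]
    refine h2.trans (h1.symm.le.trans ?_)
    rw [hB]
    refine Finset.sum_le_sum_of_subset_of_nonneg (fun j hj => ?_) fun _ _ _ => sq_nonneg _
    rw [Finset.mem_filter, Finset.mem_filter, not_le] at hj
    exact Finset.mem_filter.2 ⟨Finset.mem_univ j, hj.2.2⟩
  have hcoef : ∀ w ∈ R, (104 + 5 * (times z w : ℝ)) ≤ 580 := by
    intro w hw
    rw [hmR] at hw
    have h1 : (times z w : ℝ) ≤ 95 := by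
      have h2 : times z w ≤ 95 := by omega
      exact_mod_cast h2
    linarith
  have hysum : ∑ w ∈ R, max w M ^ 2 ≤ r * M ^ 2 + B := by
    rw [← Finset.sum_filter_add_sum_filter_not R (fun w => w ≤ M)]
    refine add_le_add ?_ (le_trans (Finset.sum_le_sum fun w hw => ?_) hT3)
    · rw [hRr, hr, ← nsmul_eq_mul, ← Finset.sum_const]
      refine Finset.sum_le_sum fun w hw => ?_
      rw [max_eq_right (mem_rare.1 hw).2.2.1]
    · rw [Finset.mem_filter, not_le] at hw
      rw [max_eq_left hw.2.le]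
  refine ⟨R, fun v => 4 * max v M, ⟨hRpos, ?_, ?_, ?_⟩⟩
  · intro v hv
    have h1 := le_max_left v M
    have h2 := hRpos v hv
    linarith
  · intro j hj hj0
    by_contra hcon
    apply hj
    rw [hmR]
    exact ⟨⟨j, rfl⟩, hj0, by omega⟩
  · intro v hv
    have hL : ∑ w ∈ R.filter (fun w => 4 * max w M ≤ 4 * max v M),
        (104 + 5 * (times z w : ℝ)) * (4 * max w M) ^ 2 ≤ 9280 * (r * M ^ 2 + B) := by
      refine (Finset.sum_le_sum_of_subset_of_nonneg (Finset.filter_subset _ _)
        fun _ _ _ => by positivity).trans ?_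
      have h1 : ∑ w ∈ R, (104 + 5 * (times z w : ℝ)) * (4 * max w M) ^ 2 ≤
          ∑ w ∈ R, 9280 * max w M ^ 2 := by
        refine Finset.sum_le_sum fun w hw => ?_
        have h2 := hcoef w hw
        have h3 := sq_nonneg (max w M)
        nlinarith
      rw [← Finset.mul_sum] at h1
      linarith
    refine hL.trans ?_
    have h1 : univ.filter (fun j => z j ∉ R ∧ z j ≤ M) ⊆
        univ.filter (fun j => z j ∉ R ∧ 4 * z j ≤ 4 * max v M) := by
      intro j hj
      rw [Finset.mem_filter] at hj ⊢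
      refine ⟨hj.1, hj.2.1, ?_⟩
      have := le_max_right v M
      linarith [hj.2.2]
    refine le_trans ?_ (Finset.sum_le_sum_of_subset_of_nonneg h1 fun _ _ _ => sq_nonneg _)
    have h2 : ∑ j, z j ^ 2 = ∑ j ∈ univ.filter (fun j => z j ∉ R ∧ z j ≤ M), z j ^ 2 +
        (∑ j ∈ univ.filter (fun j => z j ∈ rare z M), z j ^ 2 + B) := by
      rw [hB, ← Finset.sum_filter_add_sum_filter_not univ (fun j => z j ≤ M), ← add_assoc]
      congr 1
      · rw [← Finset.sum_filter_add_sum_filter_not (univ.filter fun j => z j ≤ M)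
          (fun j => z j ∉ R), Finset.filter_filter, Finset.filter_filter]
        congr 1
        · refine Finset.sum_congr ?_ fun _ _ => rfl
          ext j
          simp only [Finset.mem_filter, Finset.mem_univ, true_and]
          exact and_comm
        · refine Finset.sum_congr ?_ fun _ _ => rfl
          ext j
          rw [← hRr]
          simp only [Finset.mem_filter, Finset.mem_univ, true_and, not_not]
          exact and_comm
      · refine Finset.sum_congr ?_ fun _ _ => rfl
        ext j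
        simp only [Finset.mem_filter, Finset.mem_univ, true_and, not_le]
    have h3 : ∑ j ∈ univ.filter (fun j => z j ∈ rare z M), z j ^ 2 ≤ 95 * (r * M ^ 2) := by
      rw [sum_times z (rare z M) (fun w => w ^ 2)]
      have h4 : ∑ w ∈ rare z M, (times z w : ℝ) * w ^ 2 ≤ ∑ w ∈ rare z M, 95 * M ^ 2 := by
        refine Finset.sum_le_sum fun w hw => ?_
        obtain ⟨⟨j, hj⟩, h5, h6, h7⟩ := mem_rare.1 hw
        have h8 : (times z w : ℝ) ≤ 95 := by
          have h9 : times z w ≤ 95 := by omega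
          exact_mod_cast h9
        have h10 : w ^ 2 ≤ M ^ 2 := pow_le_pow_left₀ (by rw [← hj]; exact hz j) h6 2
        exact mul_le_mul h8 h10 (sq_nonneg _) (by norm_num)
      rw [Finset.sum_const, nsmul_eq_mul, ← hr] at h4
      linarith
    linarith

/-- many pairs with equal labels -/
theorem pairs {ι : Type} [DecidableEq ι] {N : ℕ} (lab : ι → Fin N) {a : ι → ℝ} {K : ℝ}
    (ha : ∀ i, 0 ≤ a i) : ∀ (j : ℕ) (I : Finset ι),
    (∀ i ∈ I, ∀ i' ∈ I, i ≠ i' → lab i = lab i' → K ≤ a i + a i') → N + 2 * j ≤ I.card + 1 →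
    j * K ≤ ∑ i ∈ I, a i := by
  intro j
  induction j with
  | zero =>
    intro I _ _
    simp only [Nat.cast_zero, zero_mul]
    exact Finset.sum_nonneg fun i _ => ha i
  | succ j ih =>
    intro I hI hc
    obtain ⟨i, hi, i', hi', hne, hl⟩ := Finset.exists_ne_map_eq_of_card_lt_of_maps_to
      (s := I) (t := (univ : Finset (Fin N))) (f := lab)
      (by rw [Finset.card_univ, Fintype.card_fin]; omega) (fun _ _ => Finset.mem_coe.2 (Finset.mem_univ _))
    have h1 := hI i hi i' hi' hne hl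
    have h2 := ih ((I.erase i).erase i') (fun b hb b' hb' => hI b
      (Finset.mem_of_mem_erase (Finset.mem_of_mem_erase hb)) b'
      (Finset.mem_of_mem_erase (Finset.mem_of_mem_erase hb'))) (by
        rw [Finset.card_erase_of_mem (Finset.mem_erase.2 ⟨hne.symm, hi'⟩),
          Finset.card_erase_of_mem hi]
        omega)
    have h3 := Finset.add_sum_erase I a hi
    have h4 := Finset.add_sum_erase (I.erase i) a (Finset.mem_erase.2 ⟨hne.symm, hi'⟩)
    push_cast
    linarith

end Pool.Agent.J4.H9.AR
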