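import Pool.Agent.J4.H9.AR.Irr
import Pool.Agent.Results.MP_309968_ag.FewCoefficients

/-! The inequality for all plane curves. -/

set_option autoImplicit false
set_option maxHeartbeats 1000000

namespace Pool.Agent.J4.H9.AR

open Finset Pool.Agent.J4.H9.LD
open Pool.Agent.H932R3 Pool.Agent.H350R3 Pool.Agent.H350R3.GR
open Pool.Agent.W609.CR (Van Ord aff)
open Pool.Agent.TH167.SH (van_le van_zero van_of_mul exists_fam)
open Pool.Agent.Y939.XN (mult_iff)
open Pool.Agent.Results.MP_309968_ag.BoundaryRays (MultGE)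

/-- the inequality for all forms -/
theorem form_nf (n : ℕ) : ∃ f : ℕ → MvPolynomial (Fin n × Fin 2) ℂ, (∀ k, f k ≠ 0) ∧
    ∀ p : Fin n → Fin 2 → ℂ,
      (∀ k, MvPolynomial.eval (fun q : Fin n × Fin 2 => p q.1 q.2) (f k) ≠ 0) →
      ∀ (x : Fin n → ℝ) (c : ℝ), NB.Nf ℂ x c →
        ∀ (F : MvPolynomial (Fin 3) ℂ) (e : ℕ) (m : Fin n → ℕ), F.IsHomogeneous e → F ≠ 0 →
          (∀ i, MultGE (p i) F (m i)) → ∑ j, x j * (m j : ℝ) ≤ c * e := by
  obtain ⟨f, hf, hf'⟩ := exists_conds_all (K := ℂ) n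
  refine ⟨f, hf, fun p hp x c hnf F e m hF hF0 hm => ?_⟩
  by_contra hcon
  push Not at hcon
  obtain ⟨P, hP⟩ := hnf m e hcon
  refine hF0 (hf' p hp e m ⟨P, noForm_of_emp hP⟩ F hF ?_)
  unfold ptJ vIdeal
  rw [Ideal.mem_iInf]
  intro i
  exact mem_of_support (p := p i) (hm i)

theorem exists_ord {a : Fin 2 → ℂ} {F : MvPolynomial (Fin 3) ℂ} {e : ℕ} (hF0 : F ≠ 0)
    (hF : F.IsHomogeneous e) : ∃ u, Ord (aff a) u F := by
  classical
  refine ⟨Nat.findGreatest (fun m => Van (aff a) m F) e,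
    Nat.findGreatest_spec (m := 0) (P := fun m => Van (aff a) m F) (Nat.zero_le _)
      (van_zero _ _), fun h => ?_⟩
  have h1 := van_le hF0 hF h
  have h2 := Nat.le_findGreatest (P := fun m => Van (aff a) m F) h1 h
  omega

/-- it suffices to consider irreducible forms -/
theorem form_of_irr {n : ℕ} {p : Fin n → Fin 2 → ℂ} {x : Fin n → ℝ} {c : ℝ} (hx : ∀ i, 0 ≤ x i)
    (h : ∀ (G : MvPolynomial (Fin 3) ℂ) (e : ℕ) (u : Fin n → ℕ), Irreducible G →
      G.IsHomogeneous e → (∀ j, Ord (aff (p j)) (u j) G) → ∑ i, x i * (u i : ℝ) ≤ c * e)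
    (F : MvPolynomial (Fin 3) ℂ) (e : ℕ) (m : Fin n → ℕ) (hFe : F.IsHomogeneous e) (hF0 : F ≠ 0)
    (hm : ∀ i, MultGE (p i) F (m i)) : ∑ i, x i * (m i : ℝ) ≤ c * e := by
  classical
  have key : F ≠ 0 → ∀ (e : ℕ) (m : Fin n → ℕ), F.IsHomogeneous e →
      (∀ i, Van (aff (p i)) (m i) F) → ∑ i, x i * (m i : ℝ) ≤ c * e := by
    refine WfDvdMonoid.induction_on_irreducible (motive := fun F => F ≠ 0 → ∀ (e : ℕ)
      (m : Fin n → ℕ), F.IsHomogeneous e →
      (∀ i, Van (aff (p i)) (m i) F) → ∑ i, x i * (m i : ℝ) ≤ c * e) F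
      (fun h0 => absurd rfl h0) ?_ ?_
    · intro F hF hF0 e m hFe hm
      have he : e = 0 := by
        obtain ⟨g, hg⟩ := hF.exists_right_inv
        have hg0 : g ≠ 0 := by
          rintro rfl
          rw [mul_zero] at hg
          exact zero_ne_one hg
        have h3 := MvPolynomial.totalDegree_mul_of_isDomain hF0 hg0
        rw [hg, hFe.totalDegree hF0, MvPolynomial.totalDegree_one] at h3
        omega
      have h3 : ∀ i, m i = 0 := fun i => by
        have := van_le hF0 hFe (hm i)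
        omega
      rw [he]
      simp [h3]
    · intro F G hF0 hG ih hGF e m hFe hm
      have hGh := Pool.Agent.Chud.homog_of_dvd hFe hGF ⟨F, rfl⟩
      have hFh := Pool.Agent.Chud.homog_of_dvd hFe hGF ⟨G, mul_comm _ _⟩
      have hdeg : e = G.totalDegree + F.totalDegree := by
        rw [← MvPolynomial.totalDegree_mul_of_isDomain hG.ne_zero hF0, hFe.totalDegree hGF]
      choose u hu using fun i => exists_ord (a := p i) hG.ne_zero hGh
      have h3 := h G _ u hG hGh hu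
      have h4 := ih hF0 _ (fun i => m i - u i) hFh fun i => by
        rcases le_total (u i) (m i) with h5 | h5
        · refine van_of_mul (hu i) ?_
          rw [Nat.add_sub_cancel' h5]
          exact hm i
        · rw [Nat.sub_eq_zero_of_le h5]
          exact van_zero _ _
      have h5 : ∑ i, x i * (m i : ℝ) ≤
          ∑ i, (x i * (u i : ℝ) + x i * ((m i - u i : ℕ) : ℝ)) := by
        refine Finset.sum_le_sum fun i _ => ?_
        rw [← mul_add]
        refine mul_le_mul_of_nonneg_left ?_ (hx i)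
        have : m i ≤ u i + (m i - u i) := by omega
        exact_mod_cast this
      rw [Finset.sum_add_distrib] at h5
      rw [hdeg]
      push_cast
      linarith
  exact key hF0 e m hFe ((mult_iff hFe m).1 hm)

/-- The coefficients at most `M` lie in `N` classes of diameter at most `ρ`; those larger than `M`
are a small part. -/
structure Clustered {n : ℕ} (x : Fin n → ℝ) (c M ρ : ℝ) (N : ℕ) : Prop where
  nonneg : ∀ i, 0 ≤ x i
  large : 10 ^ 6 * ∑ i ∈ univ.filter (fun i => M < x i), x i ^ 2 ≤ c ^ 2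
  small : 10 ^ 7 * M ^ 2 ≤ c ^ 2
  few : 50000 * (N * M ^ 2) ≤ c ^ 2
  classes : ∃ lab : Fin n → Fin N, ∀ i j, lab i = lab j → x i ≤ M → x j ≤ M → x i - x j ≤ ρ

theorem form_cl (n : ℕ) : ∃ f : ℕ → MvPolynomial (Fin n × Fin 2) ℂ, (∀ k, f k ≠ 0) ∧
    ∀ p : Fin n → Fin 2 → ℂ,
      (∀ k, MvPolynomial.eval (fun q : Fin n × Fin 2 => p q.1 q.2) (f k) ≠ 0) →
      (∀ (x : Fin n → ℝ) (c M ρ : ℝ) (N : ℕ), 0 < M → 0 < c → 0 ≤ ρ → Clustered x c M ρ N →
        ∑ i, x i ^ 2 + 4 * ρ ^ 2 ≤ c ^ 2 →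
        ∀ (F : MvPolynomial (Fin 3) ℂ) (e : ℕ) (m : Fin n → ℕ), F.IsHomogeneous e → F ≠ 0 →
          (∀ i, MultGE (p i) F (m i)) → ∑ j, x j * (m j : ℝ) ≤ c * e) ∧
      ∀ (x : Fin n → ℝ) (c M : ℝ), 0 < M → 0 < c → (∀ i, 0 ≤ x i) → (∀ i, x i ≤ M) →
        1100 * M ^ 2 ≤ c ^ 2 → ∑ i, x i ^ 2 ≤ c ^ 2 →
        (∀ (s : ℝ) (v : Fin n → ℝ), 0 < s → (∀ i, 0 ≤ v i) →
          (∀ i j, v i ≠ v j → s ≤ |v i - v j|) →
          c ^ 2 ≤ 67 * ((((Finset.univ.image v).erase 0).card + 1) * M ^ 2) →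
          s ^ 2 ≤ c ^ 2 - ∑ i, x i ^ 2 + ∑ i, (x i - v i) ^ 2) →
        ∀ (F : MvPolynomial (Fin 3) ℂ) (e : ℕ) (m : Fin n → ℕ), F.IsHomogeneous e → F ≠ 0 →
          (∀ i, MultGE (p i) F (m i)) → ∑ j, x j * (m j : ℝ) ≤ c * e := by
  classical
  obtain ⟨f1, hf1, h1⟩ := exists_fam (Fin n × Fin 2)
  obtain ⟨f2, hf2, h2⟩ := form_nf n
  obtain ⟨f3, hf3, h3⟩ := Pool.Agent.Results.MP_309968_ag.FewCoefficients.result n
  refine ⟨fun k => f1 k * (f2 k * f3 k),
    fun k => mul_ne_zero (hf1 k) (mul_ne_zero (hf2 k) (hf3 k)), fun p hp => ?_⟩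
  have hP := (h1 fun q => p q.1 q.2).1 fun k => by
    have := hp k
    rw [map_mul] at this
    exact left_ne_zero_of_mul this
  have hnf := h2 p fun k => by
    have := hp k
    rw [map_mul, map_mul] at this
    exact left_ne_zero_of_mul (right_ne_zero_of_mul this)
  have hfew := (h3 p fun k => by
    have := hp k
    rw [map_mul, map_mul] at this
    exact right_ne_zero_of_mul (right_ne_zero_of_mul this)).2
  refine ⟨fun x c M ρ N hM hc hρ hcl hD => form_of_irr hcl.nonneg fun G e u hG hGh hu => ?_,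
    fun x c M hM hc hx0 hxM hA hD hcrit => form_of_irr hx0 fun G e u hG hGh hu => ?_⟩
  · obtain ⟨lab, hlab⟩ := hcl.classes
    refine nef_irr_cl hP lab hM hc hcl.nonneg hcl.large hcl.small hcl.few hρ hlab hD hG hGh hu
      fun ⟨R, y, hdom⟩ => ?_
    by_cases h0 : ∀ i, u i = 0
    · rw [Finset.sum_eq_zero fun i _ => by rw [h0 i]; norm_num]
      exact Nat.zero_le _
    · push Not at h0
      obtain ⟨j, hj⟩ := h0
      have h5 := hnf _ _ (nf_dominated (fun i => Nat.cast_nonneg (u i)) hdom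
        ⟨j, by exact_mod_cast hj⟩) G _ u hGh hG.ne_zero ((mult_iff hGh u).2 fun i => (hu i).1)
      obtain ⟨Q, hQ⟩ : ∃ Q : ℝ, Q = ∑ i, (u i : ℝ) ^ 2 := ⟨_, rfl⟩
      have e1 : ∑ j, (u j : ℝ) * (u j : ℝ) = Q := by
        rw [hQ]
        exact Finset.sum_congr rfl fun j _ => by ring
      rw [← hQ, e1] at h5
      have hQ0 : 0 ≤ Q := by rw [hQ]; positivity
      have h6 : Q ^ 2 ≤ Q * (e : ℝ) ^ 2 := by
        have h7 := pow_le_pow_left₀ hQ0 h5 2
        rwa [mul_pow, Real.sq_sqrt hQ0] at h7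
      have h8 : Q ≤ (e : ℝ) ^ 2 := by
        rcases hQ0.eq_or_lt with h9 | h9
        · rw [← h9]; positivity
        · rw [pow_two] at h6
          exact le_of_mul_le_mul_left h6 h9
      rw [hQ] at h8
      exact_mod_cast h8
  · exact nef_irr_one hP hM hc hxM hA hD hcrit hG hGh hu fun W hW =>
      (hfew G _ W u hGh hG.ne_zero ((mult_iff hGh u).2 fun i => (hu i).1) hW).1

/-- division into equal intervals -/
theorem exists_classes {n : ℕ} (x : Fin n → ℝ) {M : ℝ} (hM : 0 < M) (hx : ∀ i, 0 ≤ x i) {N : ℕ}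
    (hN : 0 < N) : ∃ lab : Fin n → Fin N, ∀ i j, lab i = lab j → x i ≤ M → x j ≤ M →
      x i - x j ≤ M / N := by
  have hN0 : (0 : ℝ) < N := by exact_mod_cast hN
  refine ⟨fun i => ⟨min ⌊x i * N / M⌋₊ (N - 1), by omega⟩, fun i j hij hi hj => ?_⟩
  have h1 : min ⌊x i * N / M⌋₊ (N - 1) = min ⌊x j * N / M⌋₊ (N - 1) := congrArg Fin.val hij
  obtain ⟨l, hl⟩ : ∃ l, l = min ⌊x i * N / M⌋₊ (N - 1) := ⟨_, rfl⟩
  have hi0 : 0 ≤ x i * N / M := div_nonneg (mul_nonneg (hx i) hN0.le) hM.le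
  have hj0 : 0 ≤ x j * N / M := div_nonneg (mul_nonneg (hx j) hN0.le) hM.le
  -- the lower bound for `j`
  have h2 : (l : ℝ) ≤ x j * N / M := by
    have h3 : l ≤ ⌊x j * N / M⌋₊ := by omega
    exact (Nat.le_floor_iff hj0).1 h3
  have h4 : x i * N / M ≤ l + 1 := by
    rcases Nat.lt_or_ge ⌊x i * N / M⌋₊ (N - 1) with h5 | h5
    · have h6 : l = ⌊x i * N / M⌋₊ := by omega
      rw [h6]
      exact (Nat.lt_floor_add_one _).le
    · have h6 : l + 1 = N := by omega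
      have h7 : ((l + 1 : ℕ) : ℝ) = N := by rw [h6]
      push_cast at h7
      rw [h7, div_le_iff₀ hM]
      have := mul_le_mul_of_nonneg_right hi hN0.le
      linarith
  have h5 : (x i - x j) * N / M ≤ 1 := by
    have e1 : (x i - x j) * N / M = x i * N / M - x j * N / M := by ring
    rw [e1]
    linarith
  rw [div_le_iff₀ hM] at h5
  rw [le_div_iff₀ hN0]
  linarith

/-- clusters of equal length -/
theorem clustered_div {n : ℕ} {x : Fin n → ℝ} {c M : ℝ} (hM : 0 < M) (hc : 0 < c)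
    (hx : ∀ i, 0 ≤ x i)
    (hl : 10 ^ 6 * ∑ i ∈ univ.filter (fun i => M < x i), x i ^ 2 ≤ c ^ 2)
    (hs : 10 ^ 7 * M ^ 2 ≤ c ^ 2) :
    ∃ (ρ : ℝ) (N : ℕ), 0 ≤ ρ ∧ Clustered x c M ρ N ∧ 4 * ρ ^ 2 ≤ 11 * 10 ^ 9 * M ^ 6 / c ^ 4 := by
  obtain ⟨a, ha⟩ : ∃ a, a = c ^ 2 / (50000 * M ^ 2) := ⟨_, rfl⟩
  have hM2 : 0 < M ^ 2 := by positivity
  have hac : a * (50000 * M ^ 2) = c ^ 2 := by rw [ha]; field_simp
  have ha200 : 200 ≤ a := by
    rw [ha, le_div_iff₀ (by positivity)]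
    linarith
  obtain ⟨N, hN⟩ : ∃ N, N = ⌊a⌋₊ := ⟨_, rfl⟩
  have hNa : (N : ℝ) ≤ a := by rw [hN]; exact Nat.floor_le (by linarith)
  have hNa' : a < N + 1 := by rw [hN]; exact Nat.lt_floor_add_one a
  have hN0 : 0 < N := by
    have : (0 : ℝ) < N := by linarith
    exact_mod_cast this
  have hN0' : (0 : ℝ) < N := by exact_mod_cast hN0
  have hNge : 199 / 200 * a ≤ N := by linarith
  refine ⟨M / N, N, by positivity, ⟨hx, hl, hs, ?_, exists_classes x hM hx hN0⟩, ?_⟩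
  · rw [← hac]
    have := mul_le_mul_of_nonneg_right hNa hM2.le
    linarith
  · have hc4 : c ^ 4 = a ^ 2 * (2500000000 * M ^ 4) := by
      have e1 : c ^ 4 = (c ^ 2) ^ 2 := by ring
      rw [e1, ← hac]
      ring
    rw [hc4, div_pow, mul_div_assoc', div_le_div_iff₀ (by positivity) (by positivity)]
    have h1 : (199 / 200 * a) ^ 2 ≤ (N : ℝ) ^ 2 := pow_le_pow_left₀ (by positivity) hNge 2
    have h2 : 0 ≤ M ^ 6 := by positivity
    have h3 := mul_le_mul_of_nonneg_left h1 h2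
    have e1 : 4 * M ^ 2 * (a ^ 2 * (2500000000 * M ^ 4)) = 10 ^ 10 * (M ^ 6 * a ^ 2) := by ring
    have e2 : M ^ 6 * (199 / 200 * a) ^ 2 = 39601 / 40000 * (M ^ 6 * a ^ 2) := by ring
    rw [e1]
    rw [e2] at h3
    have h4 : 0 ≤ M ^ 6 * a ^ 2 := by positivity
    nlinarith

end Pool.Agent.J4.H9.AR
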