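import Pool.Agent.J4.H9.AR.Few
import Pool.Agent.Y939.XN.Few

/-! Irreducible curves and classes whose small coefficients form few clusters. -/

set_option autoImplicit false
set_option maxHeartbeats 2000000

namespace Pool.Agent.J4.H9.AR

open MvPolynomial Pool.Agent.W609 Pool.Agent.W609.CR Pool.Agent.TH167 Pool.Agent.TH167.SH
open Pool.Agent.Y939.XN Pool.Agent.J4.H9.LD
open Pool.Agent.H350R3

/-- the number of different values of a separated vector at the points with coefficients in few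
clusters -/
theorem count_le {n : ℕ} {x v : Fin n → ℝ} {s ρ : ℝ} {N : ℕ} (lab : Fin n → Fin N) (hs : 0 < s)
    (hsep : ∀ i j, v i ≠ v j → s ≤ |v i - v j|)
    (h : ∑ i, (x i - v i) ^ 2 + 4 * ρ ^ 2 ≤ s ^ 2)
    {I : Finset (Fin n)} (hI : ∀ i ∈ I, ∀ j ∈ I, i ≠ j → v i ≠ v j)
    (hIx : ∀ i ∈ I, ∀ j ∈ I, lab i = lab j → x i - x j ≤ ρ) : I.card ≤ N + 16 := by
  by_contra h0
  push Not at h0
  have hdev0 : 0 ≤ ∑ i, (x i - v i) ^ 2 := Finset.sum_nonneg fun _ _ => sq_nonneg _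
  have hs2 : 0 < s ^ 2 := by positivity
  have h1 := pairs lab (a := fun i => (x i - v i) ^ 2) (K := s ^ 2 / 8)
    (fun i => sq_nonneg _) 9 I (fun i hi j hj hij hl => ?_) (by omega)
  · have h2 : ∑ i ∈ I, (x i - v i) ^ 2 ≤ ∑ i, (x i - v i) ^ 2 :=
      Finset.sum_le_sum_of_subset_of_nonneg (Finset.subset_univ _) fun _ _ _ => sq_nonneg _
    have h3 := sq_nonneg ρ
    push_cast at h1
    linarith
  · have h2 := hsep i j (hI i hi j hj hij)
    have h5 : |x i - x j| ≤ ρ := abs_le.2 ⟨by linarith [hIx j hj i hi hl.symm],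
      hIx i hi j hj hl⟩
    obtain ⟨a, ha⟩ : ∃ a, a = v i - v j := ⟨_, rfl⟩
    obtain ⟨b, hb⟩ : ∃ b, b = x i - x j := ⟨_, rfl⟩
    rw [← ha] at h2
    rw [← hb] at h5
    have hρ0 : 0 ≤ ρ := (abs_nonneg b).trans h5
    have h6 : 2 * ρ ≤ s := by
      apply le_of_sq_le_sq _ hs.le
      nlinarith
    have h9 : (a - b) ^ 2 ≤ 2 * ((x i - v i) ^ 2 + (x j - v j) ^ 2) := by
      have e1 : a - b = (x j - v j) - (x i - v i) := by
        rw [ha, hb]; ring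
      rw [e1]
      nlinarith [sq_nonneg ((x i - v i) + (x j - v j))]
    have h13 : s / 2 ≤ |a - b| := by
      have h14 := abs_sub_abs_le_abs_sub a b
      linarith
    have h15 : (s / 2) ^ 2 ≤ |a - b| ^ 2 := pow_le_pow_left₀ (by positivity) h13 2
    rw [sq_abs] at h15
    nlinarith

/-- the basic facts on an irreducible curve with `D G < 0` -/
theorem basic {n : ℕ} {x : Fin n → ℝ} {c : ℝ} (hc : 0 < c)
    (hD : ∑ i, x i ^ 2 ≤ c ^ 2) {e : ℕ} {u : Fin n → ℕ}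
    (hcon : c * e < ∑ i, x i * (u i : ℝ)) (he : 0 < e) :
    ∃ k : ℕ, ∑ i, u i ^ 2 = e ^ 2 + k ∧ 1 ≤ k ∧
      ∑ i, ((u i : ℝ) - e / c * x i) ^ 2 + (e / c) ^ 2 * (c ^ 2 - ∑ i, x i ^ 2) < k := by
  obtain ⟨p, hp⟩ : ∃ p, p = ∑ i, x i * (u i : ℝ) := ⟨_, rfl⟩
  obtain ⟨X2, hX2⟩ : ∃ X2, X2 = ∑ i, x i ^ 2 := ⟨_, rfl⟩
  obtain ⟨U2, hU2⟩ : ∃ U2 : ℝ, U2 = ∑ i, (u i : ℝ) ^ 2 := ⟨_, rfl⟩
  rw [← hp] at hcon
  rw [← hX2] at hD ⊢
  have he0 : (0 : ℝ) < e := by exact_mod_cast he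
  have hcs : p ^ 2 ≤ X2 * U2 := by
    rw [hp, hX2, hU2]
    exact Finset.sum_mul_sq_le_sq_mul_sq _ _ _
  have hce0 : 0 ≤ c * e := mul_nonneg hc.le he0.le
  have hp2 : (c * e) ^ 2 < p ^ 2 := pow_lt_pow_left₀ hcon hce0 two_ne_zero
  have hU20 : 0 ≤ U2 := by rw [hU2]; exact Finset.sum_nonneg fun i _ => sq_nonneg _
  have hneg : (e : ℝ) ^ 2 < U2 := by
    have h1 : X2 * U2 ≤ c ^ 2 * U2 := mul_le_mul_of_nonneg_right hD hU20
    have h2 : c ^ 2 * (e : ℝ) ^ 2 < c ^ 2 * U2 := by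
      have e1 : (c * e) ^ 2 = c ^ 2 * (e : ℝ) ^ 2 := by ring
      linarith
    exact lt_of_mul_lt_mul_left h2 (sq_nonneg c)
  have hU2n : U2 = ((∑ i, u i ^ 2 : ℕ) : ℝ) := by rw [hU2]; push_cast; rfl
  have hnegn : e ^ 2 < ∑ i, u i ^ 2 := by
    rw [hU2n] at hneg
    exact_mod_cast hneg
  obtain ⟨k, hk⟩ : ∃ k, ∑ i, u i ^ 2 = e ^ 2 + k := ⟨∑ i, u i ^ 2 - e ^ 2, by omega⟩
  have hkR : U2 = (e : ℝ) ^ 2 + k := by
    rw [hU2n, hk]
    push_cast
    ring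
  refine ⟨k, hk, by omega, ?_⟩
  obtain ⟨t, ht⟩ : ∃ t : ℝ, t = e / c := ⟨_, rfl⟩
  rw [← ht]
  have htc : t * c = e := by rw [ht]; field_simp
  have ht0 : 0 < t := by rw [ht]; positivity
  have hsum : ∑ i, ((u i : ℝ) - t * x i) ^ 2 = U2 - 2 * t * p + t ^ 2 * X2 := by
    have e1 : ∀ i, ((u i : ℝ) - t * x i) ^ 2 =
        (u i : ℝ) ^ 2 - 2 * t * (x i * u i) + t ^ 2 * x i ^ 2 := fun i => by ring
    simp only [e1]
    rw [Finset.sum_add_distrib, Finset.sum_sub_distrib, ← Finset.mul_sum, ← Finset.mul_sum, hU2,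
      hp, hX2]
  have htp : (e : ℝ) ^ 2 < t * p := by
    have h1 : t * (c * e) < t * p := mul_lt_mul_of_pos_left hcon ht0
    have e1 : t * (c * e) = (t * c) * e := by ring
    rw [e1, htc] at h1
    have e2 : (e : ℝ) ^ 2 = e * e := by ring
    linarith
  rw [hsum, hkR]
  have e1 : t ^ 2 * (c ^ 2 - X2) = (t * c) ^ 2 - t ^ 2 * X2 := by ring
  rw [e1, htc]
  linarith

/-- The inequality for irreducible curves, all coefficients at most `M`. -/
theorem nef_irr_one {n : ℕ} {P : Fin n → Fin 2 → ℂ}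
    (hP : AlgebraicIndependent ℚ (fun ij : Fin n × Fin 2 => P ij.1 ij.2))
    {x : Fin n → ℝ} {c M : ℝ} (hM : 0 < M) (hc : 0 < c)
    (hxM : ∀ i, x i ≤ M) (hA : 1100 * M ^ 2 ≤ c ^ 2)
    (hD : ∑ i, x i ^ 2 ≤ c ^ 2)
    (hcrit : ∀ (s : ℝ) (v : Fin n → ℝ), 0 < s → (∀ i, 0 ≤ v i) →
      (∀ i j, v i ≠ v j → s ≤ |v i - v j|) →
      c ^ 2 ≤ 67 * ((((Finset.univ.image v).erase 0).card + 1) * M ^ 2) →
      s ^ 2 ≤ c ^ 2 - ∑ i, x i ^ 2 + ∑ i, (x i - v i) ^ 2)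
    {G : MvPolynomial (Fin 3) ℂ} {e : ℕ} {u : Fin n → ℕ} (hG : Irreducible G)
    (hGe : G.IsHomogeneous e) (hGo : ∀ j, Ord (aff (P j)) (u j) G)
    (hfew : ∀ W, (∀ i, u i ≤ W) → 144 * W ^ 2 ≤ max (∑ i, u i ^ 2) (e ^ 2) →
      (16 * ((Finset.univ.image u).erase 0).card + 8) * W ^ 2 ≤ max (∑ i, u i ^ 2) (e ^ 2) →
      ∑ i, u i ^ 2 ≤ e ^ 2) :
    ∑ i, x i * (u i : ℝ) ≤ c * e := by
  classical
  have hue : ∀ i, u i ≤ e := fun i => van_le hG.ne_zero hGe (hGo i).1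
  by_contra hcon
  push Not at hcon
  have he1 : 0 < e := by
    by_contra h0
    have h1 : e = 0 := by omega
    have h2 : ∑ i, x i * (u i : ℝ) = 0 := Finset.sum_eq_zero fun i _ => by
      have := hue i
      have h3 : u i = 0 := by omega
      rw [h3]; simp
    rw [h2, h1] at hcon
    simp at hcon
  obtain ⟨k, hk, hk1, hsum2⟩ := basic hc hD hcon he1
  obtain ⟨t, ht⟩ : ∃ t : ℝ, t = e / c := ⟨_, rfl⟩
  rw [← ht] at hsum2
  have he0 : (0 : ℝ) ≤ e := Nat.cast_nonneg e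
  have htc : t * c = e := by rw [ht]; field_simp
  have ht0 : 0 ≤ t := by rw [ht]; positivity
  have hk0 : (0 : ℝ) ≤ k := Nat.cast_nonneg k
  have hk1' : (1 : ℝ) ≤ k := by exact_mod_cast hk1
  have hM2 : 0 < M ^ 2 := by positivity
  obtain ⟨p, hp⟩ : ∃ p, p = ∑ i, x i * (u i : ℝ) := ⟨_, rfl⟩
  rw [← hp] at hcon
  obtain ⟨U2, hU2⟩ : ∃ U2 : ℝ, U2 = ∑ i, (u i : ℝ) ^ 2 := ⟨_, rfl⟩
  have hU2n : U2 = ((∑ i, u i ^ 2 : ℕ) : ℝ) := by rw [hU2]; push_cast; rfl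
  have hkR : U2 = (e : ℝ) ^ 2 + k := by
    rw [hU2n, hk]
    push_cast
    ring
  -- the inequality of Xu
  have hxu : ∀ j, 1 ≤ u j → k ≤ u j := by
    intro j hj
    have := xu hP hG hGe hGo hj
    omega
  obtain ⟨j0, hj0⟩ : ∃ j, 1 ≤ u j := by
    by_contra h0
    push Not at h0
    have : ∑ i, u i ^ 2 = 0 := Finset.sum_eq_zero fun i _ => by
      have := h0 i
      have h1 : u i = 0 := by omega
      rw [h1]; norm_num
    omega
  have he1' : (1 : ℝ) ≤ e := by exact_mod_cast he1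
  have ht0' : 0 < t := by rw [ht]; positivity
  -- `k ≤ 1.03 t M`
  have hkp : (k : ℝ) * p ≤ M * U2 := by
    rw [hp, hU2, Finset.mul_sum, Finset.mul_sum]
    refine Finset.sum_le_sum fun i _ => ?_
    by_cases h0 : u i = 0
    · rw [h0]; simp
    · have h1 : (k : ℝ) ≤ u i := by exact_mod_cast hxu i (by omega)
      have h2 : (0 : ℝ) ≤ u i := Nat.cast_nonneg _
      have h3 : x i * (u i : ℝ) ≤ M * u i := mul_le_mul_of_nonneg_right (hxM i) h2
      have h4 : (k : ℝ) * (x i * u i) ≤ k * (M * u i) := mul_le_mul_of_nonneg_left h3 hk0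
      have h5 : (k : ℝ) * (M * u i) ≤ u i * (M * u i) :=
        mul_le_mul_of_nonneg_right h1 (mul_nonneg hM.le h2)
      have e1 : (u i : ℝ) * (M * u i) = M * (u i : ℝ) ^ 2 := by ring
      linarith
  have hMc : 33 * M ≤ c := by
    apply le_of_sq_le_sq _ hc.le
    nlinarith
  obtain ⟨T, hT⟩ : ∃ T, T = t * M := ⟨_, rfl⟩
  have hT0 : 0 < T := by rw [hT]; positivity
  have hkT : (k : ℝ) ≤ 33 / 32 * T := by
    -- `k c e ≤ M (e ^ 2 + k)`
    have h1 : (k : ℝ) * (c * e) ≤ M * ((e : ℝ) ^ 2 + k) := by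
      rw [← hkR]
      exact le_trans (mul_le_mul_of_nonneg_left hcon.le hk0) hkp
    have h2 : (k : ℝ) * (c * e) * 32 ≤ 33 * (M * (e : ℝ) ^ 2) := by
      have h3 : 33 * (M * k) ≤ k * (c * e) := by
        have h4 : 33 * M * (k : ℝ) ≤ c * k := mul_le_mul_of_nonneg_right hMc hk0
        have h5 : c * (k : ℝ) ≤ c * k * e := le_mul_of_one_le_right (by positivity) he1'
        linarith
      linarith
    have h3 : (k : ℝ) * (c * e) ≤ 33 / 32 * T * (c * e) := by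
      have e1 : 33 / 32 * T * (c * e) = 33 / 32 * (M * ((t * c) * e)) := by rw [hT]; ring
      rw [e1, htc]
      have e2 : M * ((e : ℝ) * e) = M * (e : ℝ) ^ 2 := by ring
      rw [e2]
      linarith
    exact le_of_mul_le_mul_right h3 (by positivity)
  -- the largest multiplicity
  obtain ⟨i1, -, hi1⟩ := Finset.exists_max_image (Finset.univ : Finset (Fin n)) u
    ⟨j0, Finset.mem_univ j0⟩
  obtain ⟨μ, hμd⟩ : ∃ μ : ℝ, μ = (u i1 : ℝ) := ⟨_, rfl⟩
  have hμ0 : 0 ≤ μ := by rw [hμd]; exact Nat.cast_nonneg _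
  have hμT : μ ≤ 65 / 32 * T := by
    have h1 : (μ - t * x i1) ^ 2 ≤ k := by
      have h2 : (μ - t * x i1) ^ 2 ≤ ∑ i, ((u i : ℝ) - t * x i) ^ 2 := by
        rw [hμd]
        exact Finset.single_le_sum (f := fun i => ((u i : ℝ) - t * x i) ^ 2)
          (fun i _ => sq_nonneg _) (Finset.mem_univ i1)
      have h3 : 0 ≤ t ^ 2 * (c ^ 2 - ∑ i, x i ^ 2) :=
        mul_nonneg (sq_nonneg t) (by linarith)
      linarith
    have h2 : t * x i1 ≤ T := by
      rw [hT]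
      exact mul_le_mul_of_nonneg_left (hxM i1) ht0
    by_contra h3
    push Not at h3
    have h4 : 33 / 32 * T < μ - t * x i1 := by linarith
    have h5 : (33 / 32 * T) ^ 2 < (μ - t * x i1) ^ 2 := pow_lt_pow_left₀ h4 (by positivity) two_ne_zero
    have h6 : (k : ℝ) ≤ (k : ℝ) ^ 2 := by nlinarith
    have h7 : (k : ℝ) ^ 2 ≤ (33 / 32 * T) ^ 2 := pow_le_pow_left₀ hk0 hkT 2
    linarith
  -- the separated vector
  obtain ⟨A, hA'⟩ : ∃ A, A = (Finset.univ.image u).erase 0 := ⟨_, rfl⟩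
  have hE : (e : ℝ) ^ 2 = t ^ 2 * c ^ 2 := by rw [← htc]; ring
  have hμ2 : μ ^ 2 ≤ 4225 / 1024 * T ^ 2 := by
    have h1 := pow_le_pow_left₀ hμ0 hμT 2
    have e1 : (65 / 32 * T) ^ 2 = 4225 / 1024 * T ^ 2 := by ring
    linarith
  have hmax : ((max (∑ i, u i ^ 2) (e ^ 2) : ℕ) : ℝ) = (e : ℝ) ^ 2 + k := by
    rw [max_eq_left (by omega), hk]
    push_cast
    ring
  have hμ20 : 0 ≤ μ ^ 2 := sq_nonneg μ
  have hAT : 1100 * T ^ 2 ≤ (e : ℝ) ^ 2 := by
    rw [hE, hT]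
    have := mul_le_mul_of_nonneg_left hA (sq_nonneg t)
    nlinarith
  have hr : c ^ 2 ≤ 67 * ((A.card + 1) * M ^ 2) := by
    by_contra h0
    push Not at h0
    have h1 : 67 * (((A.card : ℝ) + 1) * T ^ 2) ≤ (e : ℝ) ^ 2 := by
      rw [hE, hT]
      have := mul_le_mul_of_nonneg_left h0.le (sq_nonneg t)
      nlinarith
    have hA0 : (0 : ℝ) ≤ A.card := Nat.cast_nonneg _
    have hfin := hfew (u i1) (fun i => hi1 i (Finset.mem_univ _)) (by
      have h1 : ((144 * u i1 ^ 2 : ℕ) : ℝ) ≤ ((max (∑ i, u i ^ 2) (e ^ 2) : ℕ) : ℝ) := by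
        rw [hmax]
        push_cast
        rw [← hμd]
        nlinarith
      exact_mod_cast h1) (by
      have h2 : (((16 * ((Finset.univ.image u).erase 0).card + 8) * u i1 ^ 2 : ℕ) : ℝ) ≤
          ((max (∑ i, u i ^ 2) (e ^ 2) : ℕ) : ℝ) := by
        rw [hmax, ← hA']
        push_cast
        rw [← hμd]
        have h3 : (16 * (A.card : ℝ) + 8) * μ ^ 2 ≤
            (16 * (A.card : ℝ) + 8) * (4225 / 1024 * T ^ 2) :=
          mul_le_mul_of_nonneg_left hμ2 (by positivity)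
        have h4 : 0 ≤ (A.card : ℝ) * T ^ 2 := by positivity
        nlinarith
      exact_mod_cast h2)
    omega
  have hv := hcrit (√(k : ℝ) / t) (fun i => (u i : ℝ) / t) (by positivity)
    (fun i => by positivity) (fun i j hij => ?_) ?_
  · rw [div_pow, Real.sq_sqrt hk0, div_le_iff₀ (by positivity)] at hv
    have e1 : (c ^ 2 - ∑ i, x i ^ 2 + ∑ i, (x i - (u i : ℝ) / t) ^ 2) * t ^ 2 =
        ∑ i, ((u i : ℝ) - t * x i) ^ 2 + t ^ 2 * (c ^ 2 - ∑ i, x i ^ 2) := by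
      rw [add_mul, Finset.sum_mul, add_comm]
      congr 1
      · refine Finset.sum_congr rfl fun i _ => ?_
        have h1 : (x i - (u i : ℝ) / t) ^ 2 * t ^ 2 = ((x i - (u i : ℝ) / t) * t) ^ 2 := by ring
        have h2 : (x i - (u i : ℝ) / t) * t = t * x i - u i := by
          field_simp
        rw [h1, h2]
        ring
      · ring
    rw [e1] at hv
    linarith
  · have hij' : u i ≠ u j := by
      intro h
      apply hij
      simp only [h]
    have h2 := spaced hP hG hGe hGo hij'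
    rw [hk] at h2
    push_cast at h2
    have h3 : (k : ℝ) ≤ ((u i : ℝ) - u j) ^ 2 := by
      have h4 : (k : ℤ) ≤ ((u i : ℤ) - u j) ^ 2 := by linarith
      exact_mod_cast h4
    have e1 : (u i : ℝ) / t - (u j : ℝ) / t = ((u i : ℝ) - u j) / t := by ring
    rw [e1, abs_div, abs_of_pos ht0']
    refine div_le_div_of_nonneg_right ?_ ht0
    exact Real.sqrt_le_iff.2 ⟨abs_nonneg _, by rw [sq_abs]; exact h3⟩
  · have e1 : ((Finset.univ.image fun i => (u i : ℝ) / t).erase 0).card = A.card := by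
      have e2 : ((Finset.univ.image fun i => (u i : ℝ) / t).erase 0) =
          A.image fun v : ℕ => (v : ℝ) / t := by
        rw [hA']
        ext y
        simp only [Finset.mem_erase, Finset.mem_image, Finset.mem_univ, true_and]
        constructor
        · rintro ⟨h1, i, rfl⟩
          refine ⟨u i, ⟨fun h => h1 ?_, i, rfl⟩, rfl⟩
          rw [h]; simp
        · rintro ⟨v, ⟨h1, i, rfl⟩, rfl⟩
          refine ⟨?_, i, rfl⟩
          have h2 : (u i : ℝ) ≠ 0 := by exact_mod_cast h1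
          exact div_ne_zero h2 ht0'.ne'
      rw [e2]
      refine Finset.card_image_of_injective _ fun a b hab => ?_
      have h1 : (a : ℝ) / t = (b : ℝ) / t := hab
      rw [div_left_inj' ht0'.ne'] at h1
      exact_mod_cast h1
    rw [e1]
    exact hr

/-- the criterion for clusters -/
theorem crit_clusters {n : ℕ} {x : Fin n → ℝ} {c M ρ : ℝ} {N : ℕ} (lab : Fin n → Fin N)
    (hM : 0 < M) (hN : 68 * ((N + 17) * M ^ 2) ≤ c ^ 2)
    (hlab : ∀ i j, lab i = lab j → x i - x j ≤ ρ) (hD : ∑ i, x i ^ 2 + 4 * ρ ^ 2 ≤ c ^ 2)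
    (s : ℝ) (v : Fin n → ℝ) (hs : 0 < s) (hsep : ∀ i j, v i ≠ v j → s ≤ |v i - v j|)
    (hr : c ^ 2 ≤ 67 * ((((Finset.univ.image v).erase 0).card + 1) * M ^ 2)) :
    s ^ 2 ≤ c ^ 2 - ∑ i, x i ^ 2 + ∑ i, (x i - v i) ^ 2 := by
  classical
  by_contra hcon
  push Not at hcon
  obtain ⟨A, hA⟩ : ∃ A, A = (Finset.univ.image v).erase 0 := ⟨_, rfl⟩
  rw [← hA] at hr
  have hM2 : 0 < M ^ 2 := by positivity
  have hcard : A.card ≤ N + 16 := by
    rcases A.eq_empty_or_nonempty with h0 | ⟨v0, hv0⟩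
    · rw [h0]; simp
    have hmA : ∀ w ∈ A, ∃ i, v i = w := by
      intro w hw
      rw [hA, Finset.mem_erase, Finset.mem_image] at hw
      obtain ⟨-, i, -, hi⟩ := hw
      exact ⟨i, hi⟩
    obtain ⟨j0, -⟩ := hmA v0 hv0
    have hrep : ∀ w, ∃ i, w ∈ A → v i = w := by
      intro w
      by_cases hw : w ∈ A
      · obtain ⟨i, hi⟩ := hmA w hw
        exact ⟨i, fun _ => hi⟩
      · exact ⟨j0, fun h => absurd h hw⟩
    choose rep hrep' using hrep
    have h1 : (A.image rep).card = A.card := by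
      refine Finset.card_image_of_injOn fun v hv w hw hvw => ?_
      rw [← hrep' v hv, ← hrep' w hw, hvw]
    rw [← h1]
    refine count_le (x := x) lab hs hsep (by linarith) ?_ fun i _ j _ h => hlab i j h
    intro i hi j hj hij h
    rw [Finset.mem_image] at hi hj
    obtain ⟨v, hv, rfl⟩ := hi
    obtain ⟨w, hw, rfl⟩ := hj
    apply hij
    have h1 : v = w := by rw [← hrep' v hv, ← hrep' w hw, h]
    rw [h1]
  have h2 : (A.card : ℝ) ≤ N + 16 := by exact_mod_cast hcard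
  have h3 : ((A.card : ℝ) + 1) * M ^ 2 ≤ (N + 17) * M ^ 2 :=
    mul_le_mul_of_nonneg_right (by linarith) hM2.le
  have h4 : 0 < ((N : ℝ) + 17) * M ^ 2 := by positivity
  linarith

/-- The inequality for irreducible curves, with large coefficients. -/
theorem nef_irr_cl {n : ℕ} {P : Fin n → Fin 2 → ℂ}
    (hP : AlgebraicIndependent ℚ (fun ij : Fin n × Fin 2 => P ij.1 ij.2))
    {x : Fin n → ℝ} {c M ρ : ℝ} {N : ℕ} (lab : Fin n → Fin N) (hM : 0 < M) (hc : 0 < c)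
    (hx0 : ∀ i, 0 ≤ x i)
    (hσ : 10 ^ 6 * ∑ i ∈ Finset.univ.filter (fun i => M < x i), x i ^ 2 ≤ c ^ 2)
    (hA : 10 ^ 7 * M ^ 2 ≤ c ^ 2) (hN : 50000 * (N * M ^ 2) ≤ c ^ 2)
    (hρ : 0 ≤ ρ)
    (hlab : ∀ i j, lab i = lab j → x i ≤ M → x j ≤ M → x i - x j ≤ ρ)
    (hD : ∑ i, x i ^ 2 + 4 * ρ ^ 2 ≤ c ^ 2)
    {G : MvPolynomial (Fin 3) ℂ} {e : ℕ} {u : Fin n → ℕ} (hG : Irreducible G)
    (hGe : G.IsHomogeneous e) (hGo : ∀ j, Ord (aff (P j)) (u j) G)
    (hex : (∃ R y, Dominated (fun i => (u i : ℝ)) R y) → ∑ i, u i ^ 2 ≤ e ^ 2) :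
    ∑ i, x i * (u i : ℝ) ≤ c * e := by
  classical
  have hue : ∀ i, u i ≤ e := fun i => van_le hG.ne_zero hGe (hGo i).1
  by_contra hcon
  push Not at hcon
  obtain ⟨p, hp⟩ : ∃ p, p = ∑ i, x i * (u i : ℝ) := ⟨_, rfl⟩
  obtain ⟨X2, hX2⟩ : ∃ X2, X2 = ∑ i, x i ^ 2 := ⟨_, rfl⟩
  obtain ⟨U2, hU2⟩ : ∃ U2 : ℝ, U2 = ∑ i, (u i : ℝ) ^ 2 := ⟨_, rfl⟩
  obtain ⟨σ, hσd⟩ : ∃ σ, σ = ∑ i ∈ Finset.univ.filter (fun i => M < x i), x i ^ 2 := ⟨_, rfl⟩
  rw [← hσd] at hσ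
  rw [← hp] at hcon
  rw [← hX2] at hD
  have he0 : (0 : ℝ) ≤ e := Nat.cast_nonneg e
  have hc2 : 0 < c ^ 2 := by positivity
  have hM2 : 0 < M ^ 2 := by positivity
  have hσ0 : 0 ≤ σ := by rw [hσd]; positivity
  have hX2c : X2 ≤ c ^ 2 := by nlinarith [sq_nonneg ρ]
  -- `G ^ 2 < 0`
  have hcs : p ^ 2 ≤ X2 * U2 := by
    rw [hp, hX2, hU2]
    exact Finset.sum_mul_sq_le_sq_mul_sq _ _ _
  have hce0 : 0 ≤ c * e := mul_nonneg hc.le he0
  have hp2 : (c * e) ^ 2 < p ^ 2 := pow_lt_pow_left₀ hcon hce0 two_ne_zero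
  have hU20 : 0 ≤ U2 := by rw [hU2]; exact Finset.sum_nonneg fun i _ => sq_nonneg _
  have hneg : (e : ℝ) ^ 2 < U2 := by
    have h1 : X2 * U2 ≤ c ^ 2 * U2 := mul_le_mul_of_nonneg_right hX2c hU20
    have h2 : c ^ 2 * (e : ℝ) ^ 2 < c ^ 2 * U2 := by
      have e1 : (c * e) ^ 2 = c ^ 2 * (e : ℝ) ^ 2 := by ring
      linarith
    exact lt_of_mul_lt_mul_left h2 (sq_nonneg c)
  have hU2n : U2 = ((∑ i, u i ^ 2 : ℕ) : ℝ) := by rw [hU2]; push_cast; rfl
  have hnegn : e ^ 2 < ∑ i, u i ^ 2 := by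
    rw [hU2n] at hneg
    exact_mod_cast hneg
  obtain ⟨k, hk⟩ : ∃ k, ∑ i, u i ^ 2 = e ^ 2 + k := ⟨∑ i, u i ^ 2 - e ^ 2, by omega⟩
  have hk1 : 1 ≤ k := by omega
  have hkR : U2 = (e : ℝ) ^ 2 + k := by
    rw [hU2n, hk]
    push_cast
    ring
  have hk0 : (0 : ℝ) ≤ k := Nat.cast_nonneg k
  have hk1' : (1 : ℝ) ≤ k := by exact_mod_cast hk1
  -- the inequality of Xu
  have hxu : ∀ j, 1 ≤ u j → k ≤ u j := by
    intro j hj
    have := xu hP hG hGe hGo hj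
    omega
  obtain ⟨j0, hj0⟩ : ∃ j, 1 ≤ u j := by
    by_contra h0
    push Not at h0
    have : ∑ i, u i ^ 2 = 0 := Finset.sum_eq_zero fun i _ => by
      have := h0 i
      have h1 : u i = 0 := by omega
      rw [h1]; norm_num
    omega
  have he1 : 1 ≤ e := hj0.trans (hue j0)
  have he1' : (1 : ℝ) ≤ e := by exact_mod_cast he1
  have hE1 : (1 : ℝ) ≤ (e : ℝ) ^ 2 := by nlinarith
  have hke : (k : ℝ) ≤ (e : ℝ) ^ 2 := by
    have h1 : (k : ℝ) ≤ e := by exact_mod_cast (hxu j0 hj0).trans (hue j0)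
    nlinarith
  have hU22 : U2 ≤ 2 * (e : ℝ) ^ 2 := by rw [hkR]; linarith
  -- the support
  obtain ⟨S, hS⟩ : ∃ S : Finset (Fin n), S = Finset.univ.filter fun i => 1 ≤ u i := ⟨_, rfl⟩
  have hmS : ∀ i, i ∈ S ↔ 1 ≤ u i := by
    intro i
    rw [hS, Finset.mem_filter]
    exact ⟨fun h => h.2, fun h => ⟨Finset.mem_univ i, h⟩⟩
  have hpS : p = ∑ i ∈ S, x i * (u i : ℝ) := by
    rw [hp]
    refine (Finset.sum_subset (Finset.subset_univ _) fun i _ hi => ?_).symm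
    rw [hmS] at hi
    have h1 : u i = 0 := by omega
    rw [h1]; simp
  have hUS : U2 = ∑ i ∈ S, (u i : ℝ) ^ 2 := by
    rw [hU2]
    refine (Finset.sum_subset (Finset.subset_univ _) fun i _ hi => ?_).symm
    rw [hmS] at hi
    have h1 : u i = 0 := by omega
    rw [h1]; norm_num
  have hXS : c ^ 2 < 2 * ∑ i ∈ S, x i ^ 2 := by
    have h1 : p ^ 2 ≤ (∑ i ∈ S, x i ^ 2) * U2 := by
      rw [hpS, hUS]
      exact Finset.sum_mul_sq_le_sq_mul_sq _ _ _
    have h2 : 0 ≤ ∑ i ∈ S, x i ^ 2 := Finset.sum_nonneg fun _ _ => sq_nonneg _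
    have h3 : (∑ i ∈ S, x i ^ 2) * U2 ≤ (∑ i ∈ S, x i ^ 2) * (2 * (e : ℝ) ^ 2) :=
      mul_le_mul_of_nonneg_left hU22 h2
    have h4 : c ^ 2 * (e : ℝ) ^ 2 < (2 * ∑ i ∈ S, x i ^ 2) * (e : ℝ) ^ 2 := by
      have e1 : (c * e) ^ 2 = c ^ 2 * (e : ℝ) ^ 2 := by ring
      linarith
    exact lt_of_mul_lt_mul_right h4 (sq_nonneg _)
  have hxle : ∀ T : Finset (Fin n), ∑ i ∈ T, x i ^ 2 ≤ T.card * M ^ 2 + σ := by
    intro T
    rw [← Finset.sum_filter_add_sum_filter_not T (fun i => x i ≤ M)]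
    refine add_le_add ?_ ?_
    · refine le_trans (Finset.sum_le_sum (g := fun _ => M ^ 2) fun i hi => ?_) ?_
      · exact pow_le_pow_left₀ (hx0 i) (Finset.mem_filter.1 hi).2 2
      · rw [Finset.sum_const, nsmul_eq_mul]
        refine mul_le_mul_of_nonneg_right ?_ hM2.le
        exact_mod_cast Finset.card_le_card (Finset.filter_subset _ _)
    · rw [hσd]
      refine Finset.sum_le_sum_of_subset_of_nonneg (fun i hi => ?_) fun _ _ _ => sq_nonneg _
      rw [Finset.mem_filter, not_le] at hi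
      exact Finset.mem_filter.2 ⟨Finset.mem_univ i, hi.2⟩
  have hScard : c ^ 2 ≤ 3 * (S.card * M ^ 2) := by
    have := hxle S
    linarith
  have hkS : (S.card : ℝ) * k ≤ 2 * (e : ℝ) ^ 2 := by
    refine le_trans ?_ hU22
    rw [hUS, ← nsmul_eq_mul, ← Finset.sum_const]
    refine Finset.sum_le_sum fun i hi => ?_
    have h1 := (hmS i).1 hi
    have h2 := hxu i h1
    have h3 : (k : ℝ) ≤ u i := by exact_mod_cast h2
    have h4 : (1 : ℝ) ≤ u i := by exact_mod_cast h1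
    nlinarith
  have hkM : (k : ℝ) * c ^ 2 ≤ 6 * ((e : ℝ) ^ 2 * M ^ 2) := by
    have h1 := mul_le_mul_of_nonneg_left hScard hk0
    have h2 := mul_le_mul_of_nonneg_right hkS hM2.le
    nlinarith
  -- the comparison with `t x`
  obtain ⟨t, ht⟩ : ∃ t : ℝ, t = e / c := ⟨_, rfl⟩
  have htc : t * c = e := by rw [ht]; field_simp
  have ht0 : 0 < t := by rw [ht]; positivity
  have hsum : ∑ i, ((u i : ℝ) - t * x i) ^ 2 = U2 - 2 * t * p + t ^ 2 * X2 := by
    have e1 : ∀ i, ((u i : ℝ) - t * x i) ^ 2 =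
        (u i : ℝ) ^ 2 - 2 * t * (x i * u i) + t ^ 2 * x i ^ 2 := fun i => by ring
    simp only [e1]
    rw [Finset.sum_add_distrib, Finset.sum_sub_distrib, ← Finset.mul_sum, ← Finset.mul_sum, hU2,
      hp, hX2]
  have htp : (e : ℝ) ^ 2 ≤ t * p := by
    have h1 : t * (c * e) ≤ t * p := mul_le_mul_of_nonneg_left hcon.le ht0.le
    have e1 : t * (c * e) = (t * c) * e := by ring
    rw [e1, htc] at h1
    have e2 : (e : ℝ) ^ 2 = e * e := by ring
    linarith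
  have hsum2 : ∑ i, ((u i : ℝ) - t * x i) ^ 2 + 4 * (t * ρ) ^ 2 ≤ k := by
    rw [hsum]
    have h1 : t ^ 2 * (X2 + 4 * ρ ^ 2) ≤ t ^ 2 * c ^ 2 :=
      mul_le_mul_of_nonneg_left hD (sq_nonneg t)
    have e1 : t ^ 2 * c ^ 2 = (e : ℝ) ^ 2 := by rw [← htc]; ring
    rw [e1] at h1
    nlinarith
  have hdev0 : 0 ≤ ∑ i, ((u i : ℝ) - t * x i) ^ 2 := Finset.sum_nonneg fun _ _ => sq_nonneg _
  have hktM : (k : ℝ) ≤ 6 * (t * M) ^ 2 := by
    have h1 : (k : ℝ) * c ^ 2 ≤ 6 * (t * M) ^ 2 * c ^ 2 := by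
      have e1 : 6 * (t * M) ^ 2 * c ^ 2 = 6 * ((t * c) ^ 2 * M ^ 2) := by ring
      rw [e1, htc]
      exact hkM
    exact le_of_mul_le_mul_right h1 hc2
  -- the large multiplicities
  obtain ⟨W, hW⟩ : ∃ W, W = 2 * (t * M) := ⟨_, rfl⟩
  have hW0 : 0 < W := by rw [hW]; positivity
  obtain ⟨B, hB⟩ : ∃ B, B = ∑ i ∈ Finset.univ.filter (fun i => W < (u i : ℝ)), (u i : ℝ) ^ 2 :=
    ⟨_, rfl⟩
  have hBle : B ≤ 4 * k + 2 * (t ^ 2 * σ) := by
    have h1 : B ≤ ∑ i, (4 * ((u i : ℝ) - t * x i) ^ 2 +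
        if M < x i then 2 * (t ^ 2 * x i ^ 2) else 0) := by
      rw [hB, Finset.sum_filter]
      refine Finset.sum_le_sum fun i _ => ?_
      by_cases h2 : W < (u i : ℝ)
      · rw [if_pos h2]
        by_cases h3 : M < x i
        · rw [if_pos h3]
          nlinarith [sq_nonneg ((u i : ℝ) - 2 * (t * x i)), sq_nonneg ((u i : ℝ) - t * x i)]
        · rw [if_neg h3, add_zero]
          push Not at h3
          have h4 : t * x i ≤ t * M := mul_le_mul_of_nonneg_left h3 ht0.le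
          have h5 : (u i : ℝ) / 2 ≤ u i - t * x i := by linarith
          have h6 : (0 : ℝ) ≤ (u i : ℝ) / 2 := by positivity
          nlinarith
      · rw [if_neg h2]
        have h3 : 0 ≤ (if M < x i then 2 * (t ^ 2 * x i ^ 2) else 0) := by
          split_ifs <;> positivity
        have h4 := sq_nonneg ((u i : ℝ) - t * x i)
        linarith
    rw [Finset.sum_add_distrib, ← Finset.mul_sum, ← Finset.sum_filter, ← Finset.mul_sum,
      ← Finset.mul_sum, ← hσd] at h1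
    have h2 := sq_nonneg (t * ρ)
    linarith
  have htσ : 10 ^ 6 * (t ^ 2 * σ) ≤ (e : ℝ) ^ 2 := by
    have h1 := mul_le_mul_of_nonneg_left hσ (sq_nonneg t)
    have e1 : t ^ 2 * c ^ 2 = (e : ℝ) ^ 2 := by rw [← htc]; ring
    rw [e1] at h1
    linarith
  have htM : 10 ^ 7 * (t * M) ^ 2 ≤ (e : ℝ) ^ 2 := by
    have h1 := mul_le_mul_of_nonneg_left hA (sq_nonneg t)
    have e1 : t ^ 2 * c ^ 2 = (e : ℝ) ^ 2 := by rw [← htc]; ring
    rw [e1] at h1
    nlinarith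
  have htM0 : 0 < (t * M) ^ 2 := by positivity
  -- many rare values
  obtain ⟨R', hR'⟩ : ∃ R' : Finset ℝ, R' = rare (fun i => (u i : ℝ)) W := ⟨_, rfl⟩
  have hmany : U2 < 9375 * (R'.card * W ^ 2) + 9281 * B := by
    by_contra h0
    push Not at h0
    have h1 := hex (dominated_few hW0 (fun i => Nat.cast_nonneg _) (by
      rw [← hR', ← hB, ← hU2]
      exact h0))
    omega
  have hR1 : 94 / 100 * (e : ℝ) ^ 2 < 37500 * (R'.card * (t * M) ^ 2) := by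
    have e1 : W ^ 2 = 4 * (t * M) ^ 2 := by rw [hW]; ring
    rw [e1] at hmany
    linarith
  -- representatives
  have hrep : ∀ v, ∃ i, v ∈ R' → (u i : ℝ) = v := by
    intro v
    by_cases hv : v ∈ R'
    · rw [hR', mem_rare] at hv
      obtain ⟨⟨i, hi⟩, -⟩ := hv
      exact ⟨i, fun _ => hi⟩
    · exact ⟨j0, fun h => absurd h hv⟩
  choose rep hrep' using hrep
  obtain ⟨I, hI⟩ : ∃ I, I = R'.image rep := ⟨_, rfl⟩
  have hIcard : I.card = R'.card := by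
    rw [hI]
    refine Finset.card_image_of_injOn fun v hv w hw hvw => ?_
    rw [← hrep' v hv, ← hrep' w hw, hvw]
  have hIinj : ∀ i ∈ I, ∀ j ∈ I, i ≠ j → u i ≠ u j := by
    intro i hi j hj hij h
    rw [hI, Finset.mem_image] at hi hj
    obtain ⟨v, hv, rfl⟩ := hi
    obtain ⟨w, hw, rfl⟩ := hj
    apply hij
    have h1 : v = w := by
      rw [← hrep' v hv, ← hrep' w hw, h]
    rw [h1]
  have hsplit : I.card = (I.filter fun i => x i ≤ M).card + (I.filter fun i => ¬ x i ≤ M).card :=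
    (Finset.card_filter_add_card_filter_not _).symm
  have hI2 : ((I.filter fun i => ¬ x i ≤ M).card : ℝ) * M ^ 2 ≤ σ := by
    rw [← nsmul_eq_mul, ← Finset.sum_const, hσd]
    refine le_trans (Finset.sum_le_sum (g := fun i => x i ^ 2) fun i hi => ?_) ?_
    · rw [Finset.mem_filter, not_le] at hi
      exact pow_le_pow_left₀ hM.le hi.2.le 2
    · refine Finset.sum_le_sum_of_subset_of_nonneg (fun i hi => ?_) fun _ _ _ => sq_nonneg _
      rw [Finset.mem_filter, not_le] at hi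
      exact Finset.mem_filter.2 ⟨Finset.mem_univ i, hi.2⟩
  have hsep : ∀ i j, (u i : ℝ) / t ≠ (u j : ℝ) / t → √(k : ℝ) / t ≤ |(u i : ℝ) / t - u j / t| := by
    intro i j hij
    have hij' : u i ≠ u j := by
      intro h
      apply hij
      simp only [h]
    have h2 := spaced hP hG hGe hGo hij'
    rw [hk] at h2
    push_cast at h2
    have h3 : (k : ℝ) ≤ ((u i : ℝ) - u j) ^ 2 := by
      have h4 : (k : ℤ) ≤ ((u i : ℤ) - u j) ^ 2 := by linarith
      exact_mod_cast h4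
    have e1 : (u i : ℝ) / t - (u j : ℝ) / t = ((u i : ℝ) - u j) / t := by ring
    rw [e1, abs_div, abs_of_pos ht0]
    refine div_le_div_of_nonneg_right ?_ ht0.le
    exact Real.sqrt_le_iff.2 ⟨abs_nonneg _, by rw [sq_abs]; exact h3⟩
  have hdev : ∑ i, (x i - (u i : ℝ) / t) ^ 2 + 4 * ρ ^ 2 ≤ (√(k : ℝ) / t) ^ 2 := by
    rw [div_pow, Real.sq_sqrt hk0, le_div_iff₀ (by positivity), add_mul, Finset.sum_mul]
    have e1 : ∀ i, (x i - (u i : ℝ) / t) ^ 2 * t ^ 2 = ((u i : ℝ) - t * x i) ^ 2 := by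
      intro i
      have h1 : (x i - (u i : ℝ) / t) ^ 2 * t ^ 2 = ((x i - (u i : ℝ) / t) * t) ^ 2 := by ring
      have h2 : (x i - (u i : ℝ) / t) * t = t * x i - u i := by
        field_simp
      rw [h1, h2]
      ring
    simp only [e1]
    have e2 : 4 * ρ ^ 2 * t ^ 2 = 4 * (t * ρ) ^ 2 := by ring
    rw [e2]
    exact hsum2
  have hI1 : (I.filter fun i => x i ≤ M).card ≤ N + 16 :=
    count_le (x := x) (v := fun i => (u i : ℝ) / t) (s := √(k : ℝ) / t) (ρ := ρ) lab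
      (by positivity) hsep hdev (fun i hi j hj hij h => hIinj i (Finset.mem_filter.1 hi).1 j
        (Finset.mem_filter.1 hj).1 hij (by
          have h1 : (u i : ℝ) / t = (u j : ℝ) / t := h
          rw [div_left_inj' ht0.ne'] at h1
          exact_mod_cast h1))
      fun i hi j hj h => hlab i j h (Finset.mem_filter.1 hi).2 (Finset.mem_filter.1 hj).2
  -- the contradiction
  have hfin : (R'.card : ℝ) ≤ N + 16 + (I.filter fun i => ¬ x i ≤ M).card := by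
    have h1 : R'.card ≤ N + 16 + (I.filter fun i => ¬ x i ≤ M).card := by omega
    exact_mod_cast h1
  have hNt : 50000 * (N * (t * M) ^ 2) ≤ (e : ℝ) ^ 2 := by
    have h1 := mul_le_mul_of_nonneg_left hN (sq_nonneg t)
    have e1 : t ^ 2 * c ^ 2 = (e : ℝ) ^ 2 := by rw [← htc]; ring
    rw [e1] at h1
    linarith
  have hIt : ((I.filter fun i => ¬ x i ≤ M).card : ℝ) * (t * M) ^ 2 ≤ t ^ 2 * σ := by
    have h1 := mul_le_mul_of_nonneg_left hI2 (sq_nonneg t)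
    linarith
  have h1 := mul_le_mul_of_nonneg_right hfin htM0.le
  nlinarith

end Pool.Agent.J4.H9.AR
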