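import Pool.Agent.J4.H9.LD.Fun

/-! The weighted inequality for dominated coefficients; zero coefficients; subfamilies. -/

set_option autoImplicit false

namespace Pool.Agent.J4.H9.AR

open Finset Pool.Agent.TH207.NC Pool.Agent.J4.H9.LD
open Pool.Agent.H350R3 Pool.Agent.H932R5

/-- points with coefficient zero may be added -/
theorem nf_zero {ι κ : Type} [Fintype ι] [Fintype κ] (emb : ι → κ) (hemb : Function.Injective emb)
    {t : κ → ℝ} {c : ℝ} (h0 : ∀ j, j ∉ Set.range emb → t j = 0)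
    (h : NB.Nf ℂ (fun i => t (emb i)) c) : NB.Nf ℂ t c := by
  intro w d hd
  have hs1 : ∑ i, t (emb i) * (w (emb i) : ℝ) = ∑ j, t j * (w j : ℝ) :=
    Fintype.sum_of_injective emb hemb _ _ (fun j hj => by rw [h0 j hj, zero_mul]) fun i => rfl
  obtain ⟨x, hx⟩ := h (fun i => w (emb i)) d (by rw [hs1]; exact hd)
  refine ⟨Function.extend emb x 0, fun f hf hfd => hx f (fun i => ?_) hfd⟩
  have h1 := hf (emb i)
  rwa [hemb.extend_apply] at h1

/-- points may be omitted -/
theorem nf_sub {ι κ : Type} [Fintype ι] [Fintype κ] (emb : ι → κ) (hemb : Function.Injective emb)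
    {t : κ → ℝ} {c : ℝ} (h : NB.Nf ℂ t c) : NB.Nf ℂ (fun i => t (emb i)) c := by
  classical
  intro w d hd
  have hs1 : ∑ i, t (emb i) * (w i : ℝ) = ∑ j, t j * ((Function.extend emb w 0 j : ℕ) : ℝ) := by
    refine Fintype.sum_of_injective emb hemb _ _ (fun j hj => ?_) fun i => ?_
    · rw [Function.extend_apply' _ _ _ (by rintro ⟨a, rfl⟩; exact hj ⟨a, rfl⟩)]
      simp
    · rw [hemb.extend_apply]
  obtain ⟨x, hx⟩ := h (Function.extend emb w 0) d (by rw [← hs1]; exact hd)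
  refine ⟨fun i => x (emb i), fun f hf hfd => hx f (fun j => ?_) hfd⟩
  by_cases hj : ∃ i, emb i = j
  · obtain ⟨i, rfl⟩ := hj
    rw [hemb.extend_apply]
    exact hf i
  · rw [Function.extend_apply' _ _ _ hj]
    simp

/-- the inequality for dominated coefficients -/
theorem nf_dominated {n : ℕ} {x : Fin n → ℝ} {R : Finset ℝ} {y : ℝ → ℝ}
    (hx : ∀ j, 0 ≤ x j) (h : Dominated x R y) (hne : ∃ j, x j ≠ 0) :
    NB.Nf ℂ x (√(∑ j, x j ^ 2)) := by
  classical
  obtain ⟨μ, hμ⟩ := h.form hx hne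
  have e2 : ∑ i : {j // x j ≠ 0}, x i ^ 2 = ∑ j, x j ^ 2 :=
    Fintype.sum_of_injective (fun i : {j // x j ≠ 0} => i.1) Subtype.val_injective _ _
      (fun j hj => by
        have : x j = 0 := by
          by_contra h0
          exact hj ⟨⟨j, h0⟩, rfl⟩
        rw [this]; norm_num) fun i => rfl
  rw [e2] at hμ
  let ε : Fin (Fintype.card {j // x j ≠ 0}) ≃ {j // x j ≠ 0} := (Fintype.equivFin _).symm
  have h1 := (hμ.equiv ε).nf
  have e3 : 3 * (√(∑ j, x j ^ 2) / 3) = √(∑ j, x j ^ 2) := by ring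
  rw [e3] at h1
  refine nf_zero (fun k => (ε k).1) (Subtype.val_injective.comp ε.injective) (fun j hj => ?_) h1
  by_contra h0
  exact hj ⟨ε.symm ⟨j, h0⟩, by simp⟩

end Pool.Agent.J4.H9.AR
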